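import Pool.Agent.helper62.EN.SpecX
import Pool.Agent.helper62.RS.All

/-!
# MP_07c750, project EN: row XUN (the volume of the translates of a set in the fundamental domain)
-/

open scoped MatrixGroups ContDiff Topology UpperHalfPlane ComplexConjugate
open UpperHalfPlane MeasureTheory Filter Set

namespace Pool.Agent.EN

theorem XUN_mul (a : SL(2, ℝ)) (T : Set SL(2, ℝ)) (hT : MeasurableSet T) :
    RS.mG {g | a * g ∈ T} = RS.mG T := by
  have hm : Measurable (fun g : SL(2, ℝ) => a * g) := (continuous_const.mul continuous_id).measurable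
  have h : Measure.map (fun g => a * g) RS.mG = RS.mG := RS.A_GLI a
  have h1 : RS.mG T = (Measure.map (fun g => a * g) RS.mG) T := by rw [h]
  rw [h1, Measure.map_apply hm hT]
  rfl

theorem XUN_proof : XUN_stmt := by
  intro Γ F g₀ H hΓ hF hH
  have hcount : Countable Γ := (QU.A_DOB Γ F hΓ hF).1
  have hdG : MeasurableSet (RS.dG F) := (RS.A_GFD Γ F hΓ hF).1.1
  have hm : ∀ a : SL(2, ℝ), Measurable (fun g : SL(2, ℝ) => a * g) := fun a =>
    (continuous_const.mul continuous_id).measurable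
  let S : Γ → Set SL(2, ℝ) := fun γ => {h | ((γ : SL(2, ℝ))⁻¹ * g₀) * h ∈ RS.dG F} ∩ H
  have hSm : ∀ γ, MeasurableSet (S γ) := fun γ => (hm _ hdG).inter hH
  have hdis : Pairwise (Function.onFun Disjoint S) := by
    intro γ γ' hne
    rw [Function.onFun, Set.disjoint_left]
    rintro h ⟨h1, -⟩ ⟨h2, -⟩
    apply hne
    have e1 : γ⁻¹ • ((g₀ * h) • I) ∈ F := by
      have h3 : ((((γ : SL(2, ℝ))⁻¹ * g₀) * h) • I : ℍ) ∈ F := h1
      rw [mul_assoc, mul_smul] at h3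
      exact h3
    have e2 : γ'⁻¹ • ((g₀ * h) • I) ∈ F := by
      have h3 : ((((γ' : SL(2, ℝ))⁻¹ * g₀) * h) • I : ℍ) ∈ F := h2
      rw [mul_assoc, mul_smul] at h3
      exact h3
    exact inv_injective ((hF.uniq ((g₀ * h) • I)).unique e1 e2)
  have hset : RS.dG F ∩ {g | ∃ γ : Γ, g₀⁻¹ * (γ : SL(2, ℝ)) * g ∈ H} =
      ⋃ γ : Γ, {g | (g₀⁻¹ * (γ : SL(2, ℝ))) * g ∈ S γ} := by
    ext g
    simp only [mem_inter_iff, mem_setOf_eq, mem_iUnion]
    have key : ∀ γ : Γ, ((γ : SL(2, ℝ))⁻¹ * g₀) * ((g₀⁻¹ * (γ : SL(2, ℝ))) * g) = g := fun γ => by group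
    constructor
    · rintro ⟨hg, γ, hγ⟩
      refine ⟨γ, ?_, hγ⟩
      change ((γ : SL(2, ℝ))⁻¹ * g₀) * ((g₀⁻¹ * (γ : SL(2, ℝ))) * g) ∈ RS.dG F
      rw [key]
      exact hg
    · rintro ⟨γ, h1, h2⟩
      have h3 : ((γ : SL(2, ℝ))⁻¹ * g₀) * ((g₀⁻¹ * (γ : SL(2, ℝ))) * g) ∈ RS.dG F := h1
      rw [key] at h3
      exact ⟨h3, γ, h2⟩
  rw [hset]
  calc RS.mG (⋃ γ : Γ, {g | (g₀⁻¹ * (γ : SL(2, ℝ))) * g ∈ S γ})
      ≤ ∑' γ : Γ, RS.mG {g | (g₀⁻¹ * (γ : SL(2, ℝ))) * g ∈ S γ} := measure_iUnion_le _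
    _ = ∑' γ : Γ, RS.mG (S γ) := tsum_congr fun γ => XUN_mul _ _ (hSm γ)
    _ = RS.mG (⋃ γ : Γ, S γ) := (measure_iUnion hdis hSm).symm
    _ ≤ RS.mG H := measure_mono (iUnion_subset fun γ => inter_subset_right)

end Pool.Agent.EN
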