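import Pool.Agent.helper80.EN.Spec

/-!
# Baer's theorem for finite groups (row `BAE` of MP_43ab4e_al)
-/

set_option autoImplicit false

namespace Pool.Agent.helper80.EN

open Subgroup

universe u

theorem BAE (hzip : ZIP_stmt.{u}) (hbas : BAS_stmt.{u}) : BAE_stmt.{u} := by
  have key : ∀ n : ℕ, ∀ (G : Type u) [Group G] [Finite G], Nat.card G = n → ∀ a : G,
      LeftEngel a → (zpowers a).IsSubnormal := by
    intro n
    induction n using Nat.strong_induction_on with
    | _ n ih =>
    intro G _ _ hn a ha
    by_contra hns
    have h1 : ∀ H : Subgroup G, zpowers a ≤ H → H ≠ ⊤ →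
        ((zpowers a).subgroupOf H).IsSubnormal := by
      intro H hH hne
      have haH : a ∈ H := hH (mem_zpowers a)
      have hcard : Nat.card H < n := by
        rw [← hn]
        refine lt_of_le_of_ne (Subgroup.card_le_card_group H) ?_
        intro he
        exact hne (Subgroup.eq_top_of_card_eq H he)
      have hEng : LeftEngel (⟨a, haH⟩ : H) := by
        intro g
        obtain ⟨m, hm⟩ := ha (g : G)
        refine ⟨m, ?_⟩
        have h2 := (hbas H).2.1 G H.subtype g ⟨a, haH⟩ m
        apply Subtype.ext
        simp only [Subgroup.subtype_apply] at h2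
        rw [h2, hm]
        rfl
      have h3 := ih (Nat.card H) hcard H rfl ⟨a, haH⟩ hEng
      have h4 : (zpowers a).subgroupOf H = zpowers (⟨a, haH⟩ : H) := by
        ext x
        simp only [Subgroup.mem_subgroupOf, Subgroup.mem_zpowers_iff]
        constructor
        · rintro ⟨k, hk⟩
          exact ⟨k, Subtype.ext (by simpa using hk)⟩
        · rintro ⟨k, hk⟩
          exact ⟨k, by rw [← hk]; simp⟩
      rw [h4]
      exact h3
    have hne : zpowers a ≠ ⊤ := by
      intro h
      rw [h] at hns
      exact hns Subgroup.IsSubnormal.top
    obtain ⟨M, hM, haM⟩ := (eq_top_or_exists_le_coatom (zpowers a)).resolve_left hne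
    have huniq : ∀ K : Subgroup G, IsCoatom K → zpowers a ≤ K → M = K := fun K hK haK =>
      hzip G (zpowers a) h1 hns M K hM hK haM haK
    have haM' : a ∈ M := haM (mem_zpowers a)
    by_cases hnor : M.Normal
    · exact hns (Subgroup.IsSubnormal.trans haM (h1 M haM hM.1) hnor.isSubnormal)
    have hN : normalizer (M : Set G) = M := by
      by_contra hcon
      have h5 : M < normalizer (M : Set G) := lt_of_le_of_ne Subgroup.le_normalizer (Ne.symm hcon)
      have h6 := hM.2 _ h5
      exact hnor (Subgroup.normalizer_eq_top_iff.1 h6)
    have hstep : ∀ x : G, com x a ∈ M → x ∈ M := by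
      intro x hx
      have h7 : x⁻¹ * a * x ∈ M := by
        have h8 : x⁻¹ * a⁻¹ * x ∈ M := by
          have h9 := M.mul_mem hx (M.inv_mem haM')
          simpa [com, mul_assoc] using h9
        have h10 := M.inv_mem h8
        simpa [mul_assoc] using h10
      have h11 : zpowers a ≤ M.map (MulAut.conj x).toMonoidHom := by
        rw [Subgroup.zpowers_le]
        refine Subgroup.mem_map.2 ⟨x⁻¹ * a * x, h7, ?_⟩
        simp [mul_assoc]
      have h12 : IsCoatom (M.map (MulAut.conj x).toMonoidHom) := by
        have h13 : M.map (MulAut.conj x).toMonoidHom = (MulAut.conj x).mapSubgroup M := rfl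
        rw [h13]
        exact ((MulAut.conj x).mapSubgroup.isCoatom_iff M).2 hM
      have h14 := huniq _ h12 h11
      rw [← hN]
      rw [Subgroup.mem_normalizer_iff]
      intro h
      constructor
      · intro hh
        rw [h14]
        exact Subgroup.mem_map.2 ⟨h, hh, by simp⟩
      · intro hh
        rw [h14] at hh
        obtain ⟨y, hy, hyx⟩ := Subgroup.mem_map.1 hh
        have h15 : y = h := by
          simpa using hyx
        rwa [← h15]
    have hall : ∀ g : G, g ∈ M := by
      intro g
      obtain ⟨m, hm⟩ := ha g
      have h16 : ∀ j : ℕ, j ≤ m → icom g a (m - j) ∈ M := by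
        intro j
        induction j with
        | zero =>
          intro _
          rw [Nat.sub_zero, hm]
          exact M.one_mem
        | succ j ihj =>
          intro hj
          have h17 := ihj (by omega)
          have h18 : m - j = (m - (j + 1)) + 1 := by omega
          rw [h18] at h17
          exact hstep _ h17
      have h19 := h16 m le_rfl
      rw [Nat.sub_self] at h19
      exact h19
    exact hM.1 (eq_top_iff.2 fun g _ => hall g)
  intro G _ _ a ha
  exact key (Nat.card G) G rfl a ha

end Pool.Agent.helper80.EN
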