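import Pool.Agent.helper80.EN.Spec2

/-!
# Toolkit for tree metrics (row `TG` of MP_43ab4e_al)
-/

set_option autoImplicit false

namespace Pool.Agent.helper80.EN

universe u

namespace TG74

variable {V : Type u} {d : V → V → ℕ}

theorem uniq (h : TM d) {x y m m' : V} (h1 : Bt d x m y) (h2 : Bt d x m' y)
    (h3 : d x m = d x m') : m = m' := by
  unfold Bt at h1 h2
  have a := h.four m m' x y
  have b := h.symm m x
  have c := h.symm m' x
  refine (h.eq m m').1 ?_
  have e1 : d m x + d m' y = d x y := by omega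
  have e2 : d m y + d m' x = d x y := by omega
  rw [e1, e2, max_self] at a
  omega

theorem median (h : TM d) (x y z : V) : ∃ m, Bt d x m y ∧ Bt d y m z ∧ Bt d x m z := by
  obtain ⟨k, hk⟩ : Even (d x y + d x z - d y z) := by
    obtain ⟨j, hj⟩ := h.par x y z
    refine ⟨j - d y z, ?_⟩
    have := h.tri y x z
    have := h.symm x y
    omega
  have t1 := h.tri x y z
  have t2 := h.tri y x z
  have s1 := h.symm x y
  obtain ⟨m, hm1, hm2⟩ := h.geo x y k (by omega)
  have a := h.four m z x y
  have s2 := h.symm m x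
  have s3 := h.symm z y
  have s4 := h.symm z x
  have s5 := h.symm y m
  have t3 := h.tri x m z
  have e1 : d m x + d z y = k + d y z := by omega
  have e2 : d m y + d z x = k + d y z := by omega
  rw [e1, e2, max_self] at a
  refine ⟨m, ?_, ?_, ?_⟩ <;> unfold Bt <;> omega

theorem local_geo (h : TM d) {x y z w : V} (h1 : Bt d x y z) (h2 : Bt d y z w) (h3 : y ≠ z) :
    Bt d x y w ∧ Bt d x z w ∧ d x w = d x y + d y z + d z w := by
  unfold Bt at *
  have a := h.four x z y w
  have b : d y z ≠ 0 := fun hh => h3 ((h.eq y z).1 hh)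
  have s1 := h.symm z y
  have t1 := h.tri x y w
  have t2 := h.tri x z w
  have e : d x z + d y w ≤ d x w + d z y := by
    rcases le_max_iff.1 a with a | a
    · omega
    · exact a
  refine ⟨?_, ?_, ?_⟩ <;> omega

theorem order (h : TM d) {p q x y : V} (h1 : Bt d p x q) (h2 : Bt d p y q) (h3 : d p x ≤ d p y) :
    Bt d p x y ∧ Bt d x y q := by
  obtain ⟨x', hx1, hx2⟩ := h.geo p y (d p x) h3
  have t1 := h.tri p x' q
  have t2 := h.tri x' y q
  have h4 : Bt d p x' q := by
    unfold Bt at *
    omega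
  have h5 : x' = x := uniq h h4 h1 hx1
  subst h5
  unfold Bt at *
  constructor <;> omega

theorem cvx_interval (h : TM d) {p q x y z : V} (h1 : Bt d p x q) (h2 : Bt d p y q)
    (h3 : Bt d x z y) : Bt d p z q := by
  have t1 := h.tri p z q
  rcases le_total (d p x) (d p y) with hle | hle
  · obtain ⟨h4, h5⟩ := order h h1 h2 hle
    have t2 := h.tri p x z
    have t3 := h.tri z y q
    unfold Bt at *
    omega
  · obtain ⟨h4, h5⟩ := order h h2 h1 hle
    have t2 := h.tri p y z
    have t3 := h.tri z x q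
    have s1 := h.symm y z
    have s2 := h.symm z x
    have s3 := h.symm x y
    unfold Bt at *
    omega

theorem gate_interval (h : TM d) {x y z m : V} (h1 : Bt d x m y) (h2 : Bt d x m z)
    (h3 : Bt d y m z) (p : V) (h4 : Bt d x p y) : Bt d z m p := by
  have t0 := h.tri z m p
  have s1 := h.symm z m
  have s2 := h.symm z p
  rcases le_total (d x p) (d x m) with hle | hle
  · obtain ⟨h5, h6⟩ := order h h4 h1 hle
    have t1 := h.tri x p z
    have s3 := h.symm m p
    unfold Bt at *
    omega
  · obtain ⟨h5, h6⟩ := order h h1 h4 hle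
    have t1 := h.tri y p z
    have s3 := h.symm m y
    have s4 := h.symm p y
    unfold Bt at *
    omega

theorem gate_cvx (h : TM d) (A : Set V) (hA : Cvx d A) (hne : A.Nonempty) (x : V) :
    ∃ m ∈ A, ∀ p ∈ A, Bt d x m p := by
  classical
  obtain ⟨a₀, ha₀⟩ := hne
  have hex : ∃ n : ℕ, ∃ m ∈ A, d x m = n := ⟨_, a₀, ha₀, rfl⟩
  obtain ⟨m, hm, hmn⟩ := Nat.find_spec hex
  refine ⟨m, hm, fun p hp => ?_⟩
  obtain ⟨n, hn1, hn2, hn3⟩ := median h x m p
  have hn : n ∈ A := hA m hm p hp n hn2
  have hmin : Nat.find hex ≤ d x n := Nat.find_min' hex ⟨n, hn, rfl⟩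
  have hz : d n m = 0 := by
    unfold Bt at hn1
    omega
  have : n = m := (h.eq n m).1 hz
  subst this
  exact hn3

theorem gate_unique (h : TM d) (A : Set V) {x m m' : V} (hm : m ∈ A) (hm' : m' ∈ A)
    (h1 : ∀ p ∈ A, Bt d x m p) (h2 : ∀ p ∈ A, Bt d x m' p) : m = m' := by
  have a := h1 m' hm'
  have b := h2 m hm
  have s := h.symm m m'
  unfold Bt at a b
  exact (h.eq m m').1 (by omega)

end TG74

theorem TG : TG_stmt.{u} := by
  intro V d h
  exact ⟨fun x y m m' => TG74.uniq h, TG74.median h, fun x y z w => TG74.local_geo h,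
    fun p q x y z => TG74.cvx_interval h, fun p q x y => TG74.order h,
    fun x y z m => TG74.gate_interval h, TG74.gate_cvx h, fun A x m m' => TG74.gate_unique h A⟩

end Pool.Agent.helper80.EN
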